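import Pool.Agent.ISO.StmtsD

set_option autoImplicit false

/-! Squad ISO, row DNL -/

namespace Pool.Agent.ISO.H93

open MvPolynomial Pool.Agent.Helper32_OMP

theorem dnl (h1 : DimStmt) (h2 : DnuStmt) (h3 : DesStmt) : DnlStmt := by
  intro k _ _ σ ι _ _ f T p hT
  classical
  have hch : ∀ q : σ → k, ∃ g : MvPolynomial σ k, eval p g ≠ 0 ∧ (q ≠ p → eval q g = 0) := by
    intro q
    by_cases hq : q = p
    · exact ⟨1, by simp, fun h => absurd hq h⟩
    · obtain ⟨l, hl⟩ := Function.ne_iff.1 hq
      refine ⟨X l - C (q l), ?_, fun _ => by simp⟩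
      simp only [map_sub, eval_X, eval_C]
      exact sub_ne_zero.2 (Ne.symm hl)
  choose g hg1 hg2 using hch
  let T' : Finset (σ → k) := insert p T
  let q : MvPolynomial σ k := ∏ x ∈ T'.erase p, g x
  have hq : eval p q ≠ 0 := by
    simp only [q, map_prod]
    exact Finset.prod_ne_zero_iff.2 fun x _ => hg1 x
  have hv : ∀ l : σ, ∀ t ∈ T', eval t (q * (X l - C (p l))) = 0 := by
    intro l t ht
    by_cases htp : t = p
    · subst htp
      simp
    · rw [map_mul]
      have : eval t q = 0 := by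
        simp only [q, map_prod]
        exact Finset.prod_eq_zero (Finset.mem_erase.2 ⟨htp, ht⟩) (hg2 t htp)
      rw [this, zero_mul]
  let e : (σ → k) → (σ → ℂ) := fun t l => algebraMap k ℂ (t l)
  let F : ι → MvPolynomial σ ℂ := fun i => map (algebraMap k ℂ) (f i)
  have hN : ∀ l : σ, ∃ N : ℕ, Kil F (map (algebraMap k ℂ) (q * (X l - C (p l))) ^ N) := by
    intro l
    refine h2 σ ι F (T'.image e) ?_ _ ?_
    · intro z hz
      refine hT z fun t ht hzt => hz ?_
      exact Finset.mem_image.2 ⟨t, Finset.mem_insert_of_mem ht, hzt.symm⟩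
    · intro z hz
      obtain ⟨t, ht, rfl⟩ := Finset.mem_image.1 hz
      have := MvPolynomial.map_eval (algebraMap k ℂ) t (q * (X l - C (p l)))
      rw [hv l t ht, map_zero] at this
      exact this.symm
  choose N hN using hN
  refine ⟨1 + ∑ l, N l, q ^ (∑ l, N l), by omega, ?_, ?_⟩
  · rw [map_pow]
    exact pow_ne_zero _ hq
  · intro α hα
    have hl : ∃ l : σ, N l ≤ α l := by
      by_contra hcon
      push Not at hcon
      have h4 : α.degree ≤ ∑ l, N l := by
        rw [Finsupp.degree_eq_sum]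
        exact Finset.sum_le_sum fun l _ => (hcon l).le
      omega
    obtain ⟨l, hl⟩ := hl
    have hdvd : (q * (X l - C (p l))) ^ N l ∣ q ^ (∑ l, N l) * xp p α := by
      rw [mul_pow]
      refine mul_dvd_mul (pow_dvd_pow _ (Finset.single_le_sum (fun _ _ => Nat.zero_le _)
        (Finset.mem_univ l))) ?_
      exact (pow_dvd_pow _ hl).trans (Finset.dvd_prod_of_mem (fun l => (X l - C (p l)) ^ α l)
        (Finset.mem_univ l))
    obtain ⟨c, hc⟩ := hdvd
    intro v
    refine h3 k σ ι f (fun j => q ^ (∑ l, N l) * xp p α * v j) ?_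
    have h5 := (h1 ℂ σ ι F).2.2.2.2 (map (algebraMap k ℂ) c) _ (hN l)
      (fun j => map (algebraMap k ℂ) (v j))
    have h6 : (fun i => map (algebraMap k ℂ) (q ^ (∑ l, N l) * xp p α * v i)) =
        fun j => map (algebraMap k ℂ) c * map (algebraMap k ℂ) (q * (X l - C (p l))) ^ N l *
          map (algebraMap k ℂ) (v j) := by
      funext j
      rw [hc, map_mul, map_mul, map_pow, mul_comm (map (algebraMap k ℂ) c)]
    rw [h6]
    exact h5

end Pool.Agent.ISO.H93
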